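import Pool.Graph.R_seed8.TH399.CC.Main
import Pool.Graph.R_seed8.H160R2.HF.Hoffman

set_option autoImplicit false
set_option linter.unusedSectionVars false

/-!
Integral decomposition for directed paths of an oriented tree (network matrices with one sign),
stated with cuts: the edges outside `H` get sets of colours such that every chosen one-edge cut of
`H` sees all colours.
-/

namespace Pool.Agent.H66.EC

open Finset
open Pool.Agent.Helper879.ECD (F2 IsFlow f2_add_self f2_cases cn)
open Pool.Agent.H160R2.HF (net net_sum eulerian)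
open Pool.Agent.TH399.CC (exists_flow_on)

variable {V E : Type} [Fintype V] [DecidableEq V] [Fintype E] [DecidableEq E]

/-- the edge `e` (from `t e` to `h e`) crosses `Z` -/
def Cr (t h : E → V) (Z : Finset V) (e : E) : Prop := ¬ (t e ∈ Z ↔ h e ∈ Z)

instance (t h : E → V) (Z : Finset V) (e : E) : Decidable (Cr t h Z e) := by
  unfold Cr; infer_instance

/-- a balanced signing of `F` with the help of the edges of the connected graph `H` -/
theorem orient (t h : E → V) (H F : Finset E)
    (hH : ∀ Z : Finset V, Z.Nonempty → Z ≠ univ → ∃ e ∈ H, Cr t h Z e)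
    (hd : ∀ e ∈ F, e ∉ H) :
    ∃ ψ : E → ℤ, (∀ e ∈ F, ψ e = 1 ∨ ψ e = -1) ∧ (∀ e ∈ H, ψ e = 0 ∨ ψ e = 1 ∨ ψ e = -1) ∧
      (∀ e, e ∉ F → e ∉ H → ψ e = 0) ∧
      ∀ Z : Finset V, ∑ e, ((if t e ∈ Z then ψ e else 0) - (if h e ∈ Z then ψ e else 0)) = 0 := by
  classical
  obtain ⟨y, hy, hyF⟩ := exists_flow_on t h (univ \ H) F (by
    intro c hc
    apply Finset.sum_eq_zero
    intro e he
    by_contra hne
    have hne' : c (t e) ≠ c (h e) := by
      intro h1
      apply hne
      rw [h1, f2_add_self]
    obtain ⟨f, hf, hcr⟩ := hH (univ.filter (fun v => c v = c (t e)))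
      ⟨t e, by simp⟩ (by
        intro h1
        have h2 : h e ∈ univ.filter (fun v => c v = c (t e)) := by rw [h1]; exact mem_univ _
        rw [mem_filter] at h2
        exact hne' h2.2.symm)
    apply hcr
    have h3 := hc f (by simp [hf])
    have h4 : c (t f) = c (h f) := by
      rcases f2_cases (c (t f)) with h5 | h5 <;> rcases f2_cases (c (h f)) with h6 | h6 <;>
        rw [h5, h6] at h3 ⊢ <;> revert h3 <;> decide
    rw [mem_filter, mem_filter, h4]
    simp)
  let F' : Finset E := univ.filter (fun e => y e = 1)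
  have hev : ∀ v, Even ((F'.filter (fun e => t e = v)).card + (F'.filter (fun e => h e = v)).card) := by
    intro v
    have h1 := hy (fun w => if w = v then 1 else 0)
    rw [← ZMod.natCast_eq_zero_iff_even, ← h1]
    push_cast
    simp only [mul_add, Finset.sum_add_distrib]
    congr 1
    · rw [Finset.card_filter, Nat.cast_sum]
      simp only [F']
      rw [Finset.sum_filter]
      apply Finset.sum_congr rfl
      intro e _
      rcases f2_cases (y e) with h5 | h5 <;> simp [h5]
    · rw [Finset.card_filter, Nat.cast_sum]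
      simp only [F']
      rw [Finset.sum_filter]
      apply Finset.sum_congr rfl
      intro e _
      rcases f2_cases (y e) with h5 | h5 <;> simp [h5]
  obtain ⟨ψ, hψ1, hψ2⟩ := eulerian t h F' hev
  refine ⟨ψ, ?_, ?_, ?_, ?_⟩
  · intro e he
    apply (hψ1 e).1
    rw [mem_filter]
    refine ⟨mem_univ _, ?_⟩
    rw [hyF e (by simp [hd e he]), if_pos he]
  · intro e _
    by_cases h1 : e ∈ F'
    · exact Or.inr ((hψ1 e).1 h1)
    · exact Or.inl ((hψ1 e).2 h1)
  · intro e he1 he2
    apply (hψ1 e).2
    rw [mem_filter]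
    rintro ⟨-, h1⟩
    rw [hyF e (by simp [he2]), if_neg he1] at h1
    exact absurd h1 (by decide)
  · intro Z
    rw [← net_sum]
    exact Finset.sum_eq_zero (fun v _ => hψ2 v)

/-- number of the edges outside `H` crossing `Z` which have the colour `j` -/
def nn {k : ℕ} (t h : E → V) (H : Finset E) (S : E → Finset (Fin k)) (Z : Finset V) (j : Fin k) : ℕ :=
  (univ.filter (fun e => (e ∉ H ∧ Cr t h Z e) ∧ j ∈ S e)).card

lemma nn_eq {k : ℕ} (t h : E → V) (H : Finset E) (S : E → Finset (Fin k)) (Z : Finset V)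
    (j : Fin k) : (nn t h H S Z j : ℤ) =
      ∑ e ∈ univ.filter (fun e => e ∉ H ∧ Cr t h Z e), (if j ∈ S e then (1 : ℤ) else 0) := by
  unfold nn
  rw [Finset.card_filter, Finset.sum_filter]
  push_cast
  apply Finset.sum_congr rfl
  intro e _
  by_cases h1 : (e ∉ H ∧ Cr t h Z e)
  · simp [h1]
  · rw [if_neg h1, if_neg (fun h2 => h1 h2.1)]

/-- the exchanged sets -/
def swap {k : ℕ} (F : Finset E) (ψ : E → ℤ) (α β : Fin k) (S : E → Finset (Fin k)) :
    E → Finset (Fin k) := fun e =>
  if e ∈ F then (if ψ e = 1 then insert α ((S e).erase β) else insert β ((S e).erase α)) else S e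

theorem core (t h : E → V) (H : Finset E)
    (hH : ∀ Z : Finset V, Z.Nonempty → Z ≠ univ → ∃ e ∈ H, Cr t h Z e)
    (k : ℕ) (p : E → ℕ) (hp : ∀ e, e ∉ H → p e ≤ k) (𝒵 : Finset (Finset V))
    (h1 : ∀ Z ∈ 𝒵, ∀ e ∈ H, ∀ f ∈ H, Cr t h Z e → Cr t h Z f → e = f)
    (h2 : ∀ Z ∈ 𝒵, ∀ e, e ∉ H → Cr t h Z e → t e ∈ Z)
    (h3 : ∀ Z ∈ 𝒵, k ≤ ∑ e ∈ univ.filter (fun e => e ∉ H ∧ Cr t h Z e), p e) :
    ∃ S : E → Finset (Fin k), (∀ e, e ∉ H → (S e).card = p e) ∧
      ∀ Z ∈ 𝒵, ∀ j, ∃ e, e ∉ H ∧ Cr t h Z e ∧ j ∈ S e := by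
  classical
  have hex : ∀ e, ∃ s : Finset (Fin k), e ∉ H → s.card = p e := by
    intro e
    by_cases he : e ∈ H
    · exact ⟨∅, fun h => absurd he h⟩
    · obtain ⟨s, -, hs⟩ := Finset.exists_subset_card_eq
        (show p e ≤ (univ : Finset (Fin k)).card by simpa using hp e he)
      exact ⟨s, fun _ => hs⟩
  choose S0 hS0 using hex
  obtain ⟨S, hS, hmin⟩ := Finset.exists_min_image
    (univ.filter (fun S : E → Finset (Fin k) => ∀ e, e ∉ H → (S e).card = p e))
    (fun S => ∑ Z ∈ 𝒵, ∑ j, (nn t h H S Z j : ℤ) ^ 2) ⟨S0, by simpa using hS0⟩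
  rw [mem_filter] at hS
  replace hS := hS.2
  have hbal : ∀ Z ∈ 𝒵, ∀ α β, nn t h H S Z α ≤ nn t h H S Z β + 1 := by
    intro Z0 hZ0 α β
    by_contra hcon
    push Not at hcon
    have hne : α ≠ β := by
      intro h4
      rw [h4] at hcon
      omega
    let F : Finset E := univ.filter (fun e => e ∉ H ∧ ¬ (α ∈ S e ↔ β ∈ S e))
    have hF : ∀ e, e ∈ F ↔ e ∉ H ∧ ¬ (α ∈ S e ↔ β ∈ S e) := fun e => by simp [F]
    obtain ⟨ψ, hψ1, hψ2, hψ3, hψ4⟩ := orient t h H F hH (fun e he => ((hF e).1 he).1)
    let S' := swap F ψ α β S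
    have hcard : ∀ e, e ∉ H → (S' e).card = p e := by
      intro e he
      rw [← hS e he]
      show (swap F ψ α β S e).card = _
      unfold swap
      by_cases heF : e ∈ F
      · rw [if_pos heF]
        have h5 := ((hF e).1 heF).2
        split_ifs with h6
        · by_cases hα : α ∈ S e
          · have hβ : β ∉ S e := fun h7 => h5 ⟨fun _ => h7, fun _ => hα⟩
            rw [Finset.erase_eq_of_notMem hβ, Finset.insert_eq_of_mem hα]
          · have hβ : β ∈ S e := by
              by_contra h7
              exact h5 ⟨fun h8 => absurd h8 hα, fun h8 => absurd h8 h7⟩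
            rw [Finset.card_insert_of_notMem (by simp [hα]), Finset.card_erase_of_mem hβ]
            have := Finset.card_pos.2 ⟨β, hβ⟩
            omega
        · by_cases hα : α ∈ S e
          · have hβ : β ∉ S e := fun h7 => h5 ⟨fun _ => h7, fun _ => hα⟩
            rw [Finset.card_insert_of_notMem (by simp [hβ]), Finset.card_erase_of_mem hα]
            have := Finset.card_pos.2 ⟨α, hα⟩
            omega
          · have hβ : β ∈ S e := by
              by_contra h7
              exact h5 ⟨fun h8 => absurd h8 hα, fun h8 => absurd h8 h7⟩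
            rw [Finset.erase_eq_of_notMem hα, Finset.insert_eq_of_mem hβ]
      · rw [if_neg heF]
    have hmem : ∀ e j, j ≠ α → j ≠ β → (j ∈ S' e ↔ j ∈ S e) := by
      intro e j hj1 hj2
      show j ∈ swap F ψ α β S e ↔ _
      unfold swap
      split_ifs <;> simp [hj1, hj2]
    have hmα : ∀ e ∈ F, (α ∈ S' e ↔ ψ e = 1) := by
      intro e he
      show α ∈ swap F ψ α β S e ↔ _
      unfold swap
      rw [if_pos he]
      split_ifs with h6
      · simp [h6]
      · simp [h6, hne]
    have hmβ : ∀ e ∈ F, (β ∈ S' e ↔ ¬ ψ e = 1) := by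
      intro e he
      show β ∈ swap F ψ α β S e ↔ _
      unfold swap
      rw [if_pos he]
      split_ifs with h6
      · simp [h6, hne.symm]
      · simp [h6]
    have hmn : ∀ e, e ∉ F → S' e = S e := by
      intro e he
      show swap F ψ α β S e = _
      unfold swap
      rw [if_neg he]
    have hj : ∀ Z j, j ≠ α → j ≠ β → nn t h H S' Z j = nn t h H S Z j := by
      intro Z j hj1 hj2
      unfold nn
      congr 1
      ext e
      rw [mem_filter, mem_filter, hmem e j hj1 hj2]
    have hsum : ∀ Z, (nn t h H S' Z α : ℤ) + nn t h H S' Z β = nn t h H S Z α + nn t h H S Z β := by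
      intro Z
      simp only [nn_eq]
      rw [← Finset.sum_add_distrib, ← Finset.sum_add_distrib]
      apply Finset.sum_congr rfl
      intro e he
      by_cases heF : e ∈ F
      · have h5 := ((hF e).1 heF).2
        simp only [hmα e heF, hmβ e heF]
        by_cases h6 : ψ e = 1 <;> by_cases hα : α ∈ S e <;> by_cases hβ : β ∈ S e <;>
          simp [h6, hα, hβ] at h5 ⊢
      · rw [hmn e heF]
    have hdif : ∀ Z ∈ 𝒵, |(nn t h H S' Z α : ℤ) - nn t h H S' Z β| ≤ 1 := by
      intro Z hZ
      have e1 : (nn t h H S' Z α : ℤ) - nn t h H S' Z β =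
          ∑ e ∈ univ.filter (fun e => e ∉ H),
            ((if t e ∈ Z then ψ e else 0) - (if h e ∈ Z then ψ e else 0)) := by
        simp only [nn_eq]
        rw [← Finset.sum_sub_distrib]
        have e2 : univ.filter (fun e => e ∉ H ∧ Cr t h Z e) =
            (univ.filter (fun e => e ∉ H)).filter (fun e => Cr t h Z e) := by
          rw [Finset.filter_filter]
        rw [e2, Finset.sum_filter]
        apply Finset.sum_congr rfl
        intro e he
        rw [mem_filter] at he
        by_cases hcr : Cr t h Z e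
        · rw [if_pos hcr]
          have ht := h2 Z hZ e he.2 hcr
          have hh : h e ∉ Z := fun h5 => hcr ⟨fun _ => h5, fun _ => ht⟩
          rw [if_pos ht, if_neg hh, sub_zero]
          by_cases heF : e ∈ F
          · simp only [hmα e heF, hmβ e heF]
            rcases hψ1 e heF with h6 | h6
            · simp [h6]
            · rw [h6]; norm_num
          · rw [hmn e heF, hψ3 e heF he.2]
            have h5 : (α ∈ S e ↔ β ∈ S e) := by
              by_contra h6
              exact heF ((hF e).2 ⟨he.2, h6⟩)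
            simp [h5]
        · rw [if_neg hcr]
          have h5 : (t e ∈ Z ↔ h e ∈ Z) := by
            by_contra h6
            exact hcr h6
          simp [h5]
      have e3 := hψ4 Z
      rw [← Finset.sum_filter_add_sum_filter_not univ (fun e => e ∉ H)] at e3
      have e4 : |∑ e ∈ univ.filter (fun e => ¬ e ∉ H),
          ((if t e ∈ Z then ψ e else 0) - (if h e ∈ Z then ψ e else 0))| ≤ 1 := by
        by_cases hb : ∃ b ∈ H, Cr t h Z b
        · obtain ⟨b, hb, hbc⟩ := hb
          rw [Finset.sum_eq_single b]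
          · rcases hψ2 b hb with h6 | h6 | h6 <;> rw [h6] <;> split_ifs <;> norm_num
          · intro e he hne'
            rw [mem_filter, not_not] at he
            have h5 : (t e ∈ Z ↔ h e ∈ Z) := by
              by_contra h6
              exact hne' (h1 Z hZ e he.2 b hb h6 hbc)
            simp [h5]
          · intro h5
            exfalso
            apply h5
            simp [hb]
        · push Not at hb
          rw [Finset.sum_eq_zero]
          · norm_num
          · intro e he
            rw [mem_filter, not_not] at he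
            have h5 : (t e ∈ Z ↔ h e ∈ Z) := by
              by_contra h6
              exact hb e he.2 h6
            simp [h5]
      rw [e1]
      rw [abs_le] at e4 ⊢
      constructor <;> linarith [e4.1, e4.2]
    have hsq : ∀ Z ∈ 𝒵, (nn t h H S' Z α : ℤ) ^ 2 + (nn t h H S' Z β : ℤ) ^ 2 ≤
        (nn t h H S Z α : ℤ) ^ 2 + (nn t h H S Z β : ℤ) ^ 2 ∧
        (nn t h H S Z β + 1 < nn t h H S Z α →
          (nn t h H S' Z α : ℤ) ^ 2 + (nn t h H S' Z β : ℤ) ^ 2 <
          (nn t h H S Z α : ℤ) ^ 2 + (nn t h H S Z β : ℤ) ^ 2) := by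
      intro Z hZ
      have a1 := hsum Z
      have a2 := abs_le.1 (hdif Z hZ)
      generalize (nn t h H S' Z α : ℤ) = x at *
      generalize (nn t h H S' Z β : ℤ) = y at *
      have a3 : (nn t h H S Z β + 1 < nn t h H S Z α) ↔
          ((nn t h H S Z β : ℤ) + 1 < nn t h H S Z α) := by
        constructor <;> intro h5 <;> exact_mod_cast h5
      rw [a3]
      generalize (nn t h H S Z α : ℤ) = u at *
      generalize (nn t h H S Z β : ℤ) = w at *
      have hd : x - y = -1 ∨ x - y = 0 ∨ x - y = 1 := by omega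
      have k1 : 2 * (x ^ 2 + y ^ 2) = (u + w) ^ 2 + (x - y) ^ 2 := by rw [← a1]; ring
      have k2 : 2 * (u ^ 2 + w ^ 2) = (u + w) ^ 2 + (u - w) ^ 2 := by ring
      constructor
      · have k3 : (x - y) ^ 2 ≤ (u - w) ^ 2 := by
          rcases hd with h5 | h5 | h5
          · have h6 : u - w ≤ -1 ∨ 1 ≤ u - w := by omega
            rw [h5]
            rcases h6 with h8 | h8 <;> nlinarith
          · rw [h5]
            nlinarith [sq_nonneg (u - w)]
          · have h6 : u - w ≤ -1 ∨ 1 ≤ u - w := by omega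
            rw [h5]
            rcases h6 with h8 | h8 <;> nlinarith
        linarith
      · intro h6
        have h9 : 2 ≤ u - w := by omega
        have h7 : 4 ≤ (u - w) ^ 2 := by nlinarith
        have h8 : (x - y) ^ 2 ≤ 1 := by
          rcases hd with h5 | h5 | h5 <;> rw [h5] <;> norm_num
        linarith
    have hsplit : ∀ (f : Fin k → ℤ), ∑ j, f j =
        f α + f β + ∑ j ∈ (univ.erase α).erase β, f j := by
      intro f
      rw [← Finset.add_sum_erase univ f (mem_univ α),
        ← Finset.add_sum_erase (univ.erase α) f (by simp [hne.symm] : β ∈ univ.erase α)]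
      ring
    have hlt : ∑ Z ∈ 𝒵, ∑ j, (nn t h H S' Z j : ℤ) ^ 2 < ∑ Z ∈ 𝒵, ∑ j, (nn t h H S Z j : ℤ) ^ 2 := by
      apply Finset.sum_lt_sum
      · intro Z hZ
        rw [hsplit, hsplit]
        have h5 : ∑ j ∈ (univ.erase α).erase β, (nn t h H S' Z j : ℤ) ^ 2 =
            ∑ j ∈ (univ.erase α).erase β, (nn t h H S Z j : ℤ) ^ 2 := by
          apply Finset.sum_congr rfl
          intro j hj'
          rw [Finset.mem_erase, Finset.mem_erase] at hj'
          rw [hj Z j hj'.2.1 hj'.1]
        rw [h5]
        linarith [(hsq Z hZ).1]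
      · refine ⟨Z0, hZ0, ?_⟩
        rw [hsplit, hsplit]
        have h5 : ∑ j ∈ (univ.erase α).erase β, (nn t h H S' Z0 j : ℤ) ^ 2 =
            ∑ j ∈ (univ.erase α).erase β, (nn t h H S Z0 j : ℤ) ^ 2 := by
          apply Finset.sum_congr rfl
          intro j hj'
          rw [Finset.mem_erase, Finset.mem_erase] at hj'
          rw [hj Z0 j hj'.2.1 hj'.1]
        rw [h5]
        linarith [(hsq Z0 hZ0).2 hcon]
    have hge := hmin S' (by rw [mem_filter]; exact ⟨mem_univ _, hcard⟩)
    exact absurd hlt (not_lt.2 hge)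
  refine ⟨S, hS, ?_⟩
  intro Z hZ j
  by_contra hcon
  push Not at hcon
  have hj0 : nn t h H S Z j = 0 := by
    unfold nn
    rw [Finset.card_eq_zero, Finset.filter_eq_empty_iff]
    rintro e - ⟨⟨h4, h5⟩, h6⟩
    exact hcon e h4 h5 h6
  have hall : ∀ i, nn t h H S Z i ≤ 1 := by
    intro i
    have := hbal Z hZ i j
    omega
  have htot : ∑ i, nn t h H S Z i = ∑ e ∈ univ.filter (fun e => e ∉ H ∧ Cr t h Z e), p e := by
    have h4 : ∀ i, nn t h H S Z i =
        ∑ e ∈ univ.filter (fun e => e ∉ H ∧ Cr t h Z e), (if i ∈ S e then 1 else 0) := by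
      intro i
      have := nn_eq t h H S Z i
      exact_mod_cast this
    rw [Finset.sum_congr rfl (fun i _ => h4 i), Finset.sum_comm]
    apply Finset.sum_congr rfl
    intro e he
    rw [mem_filter] at he
    rw [← hS e he.2.1, ← Finset.card_filter]
    congr 1
    ext i
    simp
  have h5 := h3 Z hZ
  rw [← htot] at h5
  have h6 : ∑ i, nn t h H S Z i < ∑ i : Fin k, 1 := by
    apply Finset.sum_lt_sum (fun i _ => hall i)
    exact ⟨j, mem_univ _, by rw [hj0]; norm_num⟩
  simp at h6
  omega

end Pool.Agent.H66.EC
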