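import Pool.Agent.H66.EC.Third

set_option autoImplicit false
set_option linter.unusedSectionVars false

/-!
The two forms of the hypothesis: directed trees, and rooted (search) trees.
-/

namespace Pool.Agent.H66.EC

open Finset
open Pool.Agent.H126R2.CDC (MGraph)
open Pool.Agent.H126R2.NC (InCone InLat InIntCone cone_lat_of_intCone)

variable {V E : Type} [Fintype V] [DecidableEq V] [Fintype E] [DecidableEq E]

/-- the edge `e` leaves the vertex set `Z` -/
def Leaves (G : MGraph V E) (Z : Finset V) (e : E) : Prop :=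
  (∃ x ∈ G.ends e, x ∈ Z) ∧ ∃ x ∈ G.ends e, x ∉ Z

/-- exactly one edge of `T` leaves `Z` -/
def Thin (G : MGraph V E) (T : Finset E) (Z : Finset V) : Prop :=
  ∃ b ∈ T, Leaves G Z b ∧ ∀ e ∈ T, Leaves G Z e → e = b

lemma leaves_iff (G : MGraph V E) (t h : E → V) (hth : ∀ e, G.ends e = s(t e, h e))
    (Z : Finset V) (e : E) : Leaves G Z e ↔ Cr t h Z e := by
  unfold Leaves Cr
  rw [hth e]
  simp only [Sym2.mem_iff, exists_eq_or_imp, exists_eq_left]
  tauto

/-- the main theorem for trees along which the other edges are directed -/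
theorem general (G : MGraph V E) (p : E → ℕ) (c : ℕ)
    (hw : ((∀ e, Even (p e)) ∧ ∀ e, p e ≤ c) ∨ ((∀ e, 4 ∣ p e) ∧ ∀ e, 2 * p e ≤ 3 * c) ∨
      ∀ e, c + 2 ≤ 2 * p e ∧ 2 * p e + 17 ≤ 3 * c)
    (T : Finset E) (S : Finset V → Prop) (hT : ∀ e ∈ T, p e = c)
    (hT2 : ∀ Z : Finset V, Z.Nonempty → Z ≠ univ → ∃ e ∈ T, Leaves G Z e)
    (hS : ∀ Z, Thin G T Z → S Z ∨ S Zᶜ)
    (hd : ∀ e x y, G.ends e = s(x, y) → p e ≠ c →
      (∀ Z, Thin G T Z → S Z → x ∈ Z → y ∈ Z) ∨ (∀ Z, Thin G T Z → S Z → y ∈ Z → x ∈ Z)) :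
    InIntCone G p ↔ InCone G p ∧ InLat G p := by
  classical
  refine ⟨cone_lat_of_intCone G p, fun hp => ?_⟩
  obtain ⟨v, hv⟩ := G.exists_halves
  let a : E → V := fun e => v (e, false)
  let b : E → V := fun e => v (e, true)
  have hab : ∀ e, G.ends e = s(a e, b e) := hv
  let Q : E → Prop := fun e => ∀ Z, Thin G T Z → S Z → a e ∈ Z → b e ∈ Z
  let t : E → V := fun e => if Q e then b e else a e
  let h : E → V := fun e => if Q e then a e else b e
  have hth : ∀ e, G.ends e = s(t e, h e) := by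
    intro e
    by_cases hQ : Q e
    · simp only [t, h, if_pos hQ]
      rw [hab e, Sym2.eq_swap]
    · simp only [t, h, if_neg hQ]
      exact hab e
  have hthin : ∀ Z, (∃ b, p b = c ∧ Cr t h Z b ∧ ∀ e, p e = c → Cr t h Z e → e = b) →
      Thin G T Z := by
    rintro Z ⟨e0, h1, h2, h3⟩
    have hZ1 : Z.Nonempty := by
      rw [Finset.nonempty_iff_ne_empty]
      intro h4
      rw [h4] at h2
      exact h2 (by simp)
    have hZ2 : Z ≠ univ := by
      intro h4
      rw [h4] at h2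
      exact h2 (by simp)
    obtain ⟨e1, h4, h5⟩ := hT2 Z hZ1 hZ2
    have h6 := h3 e1 (hT e1 h4) ((leaves_iff G t h hth Z e1).1 h5)
    subst h6
    exact ⟨e1, h4, h5, fun e he hl => h3 e (hT e he) ((leaves_iff G t h hth Z e).1 hl)⟩
  have hH : ∀ Z : Finset V, Z.Nonempty → Z ≠ univ → ∃ e, p e = c ∧ Cr t h Z e := by
    intro Z h1 h2
    obtain ⟨e, he, hl⟩ := hT2 Z h1 h2
    exact ⟨e, hT e he, (leaves_iff G t h hth Z e).1 hl⟩
  have hS1 : ∀ Z, (∃ b, p b = c ∧ Cr t h Z b ∧ ∀ e, p e = c → Cr t h Z e → e = b) →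
      S Z ∨ S Zᶜ := fun Z hZ => hS Z (hthin Z hZ)
  have hS2 : ∀ Z, (∃ b, p b = c ∧ Cr t h Z b ∧ ∀ e, p e = c → Cr t h Z e → e = b) → S Z →
      ∀ e, p e ≠ c → Cr t h Z e → t e ∈ Z := by
    intro Z hZ hs e he hcr
    have hZ' := hthin Z hZ
    by_cases hQ : Q e
    · have ht : t e = b e := if_pos hQ
      have hh : h e = a e := if_pos hQ
      unfold Cr at hcr
      rw [ht, hh] at hcr
      rw [ht]
      by_contra h1
      exact hcr ⟨fun h2 => absurd h2 h1, fun h2 => hQ Z hZ' hs h2⟩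
    · have ht : t e = a e := if_neg hQ
      have hh : h e = b e := if_neg hQ
      unfold Cr at hcr
      rw [ht, hh] at hcr
      rw [ht]
      rcases hd e (a e) (b e) (hab e) he with h3 | h3
      · exact absurd h3 hQ
      · by_contra h1
        exact hcr ⟨fun h2 => absurd h2 h1, fun h2 => h3 Z hZ' hs h2⟩
  rcases hw with ⟨hev, hw⟩ | ⟨hw1, hw2⟩ | hw
  · exact cover_max G t h hth p hev c hw S hH hS1 hS2 hp.1
  · exact cover_four G t h hth p hw1 c hw2 S hH hS1 hS2 hp.1
  · exact cover_any G t h hth p c (fun e => (hw e).1) (fun e => (hw e).2) S hH hS1 hS2 hp.1 hp.2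

/-- the main theorem for rooted trees with comparable ends of the other edges -/
theorem rooted (G : MGraph V E) (p : E → ℕ) (c : ℕ)
    (hw : ((∀ e, Even (p e)) ∧ ∀ e, p e ≤ c) ∨ ((∀ e, 4 ∣ p e) ∧ ∀ e, 2 * p e ≤ 3 * c) ∨
      ∀ e, c + 2 ≤ 2 * p e ∧ 2 * p e + 17 ≤ 3 * c)
    (r : V) (par : V → V) (te : V → E) (hr : par r = r) (hreach : ∀ v, ∃ n, par^[n] v = r)
    (hte : ∀ v, v ≠ r → G.ends (te v) = s(v, par v) ∧ p (te v) = c)
    (hd : ∀ e x y, G.ends e = s(x, y) → p e ≠ c → ∃ n, par^[n] x = y ∨ par^[n] y = x) :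
    InIntCone G p ↔ InCone G p ∧ InLat G p := by
  classical
  have hleave : ∀ (Z : Finset V) v, v ≠ r → (v ∈ Z ↔ par v ∉ Z) → Leaves G Z (te v) := by
    intro Z v hv h1
    unfold Leaves
    rw [(hte v hv).1]
    simp only [Sym2.mem_iff, exists_eq_or_imp, exists_eq_left]
    tauto
  -- first step into a set along the path to the root
  have hstep : ∀ (P : V → Prop) (x : V) (n : ℕ), ¬ P x → P (par^[n] x) →
      ∃ w, ¬ P w ∧ P (par w) := by
    intro P x n
    induction n generalizing x with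
    | zero => intro h1 h2; exact absurd h2 h1
    | succ n ih =>
      intro h1 h2
      by_cases h3 : P (par x)
      · exact ⟨x, h1, h3⟩
      · exact ih (par x) h3 (by rwa [Function.iterate_succ_apply] at h2)
  have hcycle : ∀ w w', par w = w' → par w' = w → w ≠ r → w' ≠ r → False := by
    intro w w' h1 h2 h3 h4
    have h5 : ∀ n, par^[n] w = w ∨ par^[n] w = w' := by
      intro n
      induction n with
      | zero => exact Or.inl rfl
      | succ n ih =>
        rw [Function.iterate_succ_apply']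
        rcases ih with h6 | h6
        · rw [h6]; exact Or.inr h1
        · rw [h6]; exact Or.inl h2
    obtain ⟨n, hn⟩ := hreach w
    rcases h5 n with h6 | h6
    · exact h3 (h6.symm.trans hn)
    · exact h4 (h6.symm.trans hn)
  -- comparability
  have hcomp : ∀ x y n, par^[n] x = y → ∀ Z : Finset V,
      Thin G ((univ.erase r).image te) Z → r ∉ Z → y ∈ Z → x ∈ Z := by
    intro x y n hxy Z hZ hrZ hy
    by_contra hx
    obtain ⟨w, hw1, hw2⟩ := hstep (fun v => v ∈ Z) x n hx (by rw [hxy]; exact hy)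
    obtain ⟨m, hm⟩ := hreach y
    obtain ⟨w', hw3, hw4⟩ := hstep (fun v => v ∉ Z) y m (not_not.2 hy) (by rw [hm]; exact hrZ)
    rw [not_not] at hw3
    have hwr : w ≠ r := by
      intro h1
      rw [h1, hr] at hw2
      exact hrZ hw2
    have hwr' : w' ≠ r := fun h1 => hrZ (h1 ▸ hw3)
    obtain ⟨b, -, -, hb⟩ := hZ
    have h1 := hb (te w) (mem_image_of_mem te (by simp [hwr]))
      (hleave Z w hwr (by constructor <;> intro h5 <;> [exact absurd h5 hw1; exact absurd hw2 h5]))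
    have h2 := hb (te w') (mem_image_of_mem te (by simp [hwr']))
      (hleave Z w' hwr' ⟨fun _ => hw4, fun _ => hw3⟩)
    have h3 : s(w, par w) = s(w', par w') := by
      rw [← (hte w hwr).1, ← (hte w' hwr').1, h1, h2]
    rw [Sym2.eq_iff] at h3
    rcases h3 with ⟨h4, -⟩ | ⟨h4, h5⟩
    · exact hw1 (h4 ▸ hw3)
    · exact hcycle w w' h5 h4.symm hwr hwr'
  refine general G p c hw ((univ.erase r).image te) (fun Z => r ∉ Z) ?_ ?_ ?_ ?_
  · intro e he
    rw [mem_image] at he
    obtain ⟨v, hv, rfl⟩ := he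
    exact (hte v (ne_of_mem_erase hv)).2
  · intro Z hZ1 hZ2
    have h1 : ∃ v, ¬ (v ∈ Z ↔ r ∈ Z) := by
      by_cases hrZ : r ∈ Z
      · by_contra h2
        push Not at h2
        apply hZ2
        ext v
        simp only [mem_univ, iff_true]
        exact (h2 v).2 hrZ
      · obtain ⟨v, hv⟩ := hZ1
        exact ⟨v, fun h2 => hrZ (h2.1 hv)⟩
    obtain ⟨v, hv⟩ := h1
    obtain ⟨n, hn⟩ := hreach v
    obtain ⟨w, hw1, hw2⟩ := hstep (fun u => (u ∈ Z ↔ r ∈ Z)) v n hv (by rw [hn])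
    have hwr : w ≠ r := fun h2 => hw1 (by rw [h2])
    refine ⟨te w, mem_image_of_mem te (by simp [hwr]), hleave Z w hwr ?_⟩
    tauto
  · intro Z _
    by_cases hrZ : r ∈ Z
    · right; simp [hrZ]
    · left; exact hrZ
  · intro e x y hxy he
    obtain ⟨n, hn | hn⟩ := hd e x y hxy he
    · right
      intro Z hZ hs hy
      exact hcomp x y n hn Z hZ hs hy
    · left
      intro Z hZ hs hx
      exact hcomp y x n hn Z hZ hs hx

end Pool.Agent.H66.EC
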