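import Pool.Agent.H66.EC.Core

set_option autoImplicit false
set_option linter.unusedSectionVars false

/-!
Circuit covers of even weightings which are constant on a spanning tree along which the other
edges are directed.
-/

namespace Pool.Agent.H66.EC

open Finset
open Pool.Agent.Helper879.ECD (F2 IsFlow f2_add_self f2_cases cn)
open Pool.Agent.H126R2.CDC (MGraph isFl_iff)
open Pool.Agent.H126R2.NC (TC InCone InLat InIntCone cone_lat_of_intCone cover_minus const_of_tc
  countP_sum)
open Pool.Agent.TH399.CC (block intCone_add intCone_sum)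

variable {V E : Type} [Fintype V] [DecidableEq V] [Fintype E] [DecidableEq E]

/-- the halves of the edges given by two maps -/
def hv2 (t h : E → V) : E × Bool → V := fun q => cond q.2 (h q.1) (t q.1)

lemma cr_compl (t h : E → V) (Z : Finset V) (e : E) : Cr t h Zᶜ e ↔ Cr t h Z e := by
  unfold Cr
  rw [Finset.mem_compl, Finset.mem_compl]
  tauto

/-- the cut inequalities of the cone -/
lemma cone_cut (G : MGraph V E) (t h : E → V) (hth : ∀ e, G.ends e = s(t e, h e)) (p : E → ℕ)
    (hp : InCone G p) (Z : Finset V) (e0 : E) (he0 : Cr t h Z e0) :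
    p e0 ≤ ∑ e ∈ univ.filter (fun e => e ≠ e0 ∧ Cr t h Z e), p e := by
  classical
  obtain ⟨w, h0, h1, h2⟩ := hp
  have key : ∀ C, G.IsCircuit C → (if e0 ∈ C then (1 : ℝ) else 0) ≤
      ∑ e ∈ univ.filter (fun e => e ≠ e0 ∧ Cr t h Z e), (if e ∈ C then (1 : ℝ) else 0) := by
    intro C hC
    by_cases he : e0 ∈ C
    · rw [if_pos he]
      have h3 := (isFl_iff (hv2 t h) _).1 ((G.isEven_iff (hv2 t h) hth C).1 hC.isEven)
        (fun v => if v ∈ Z then 1 else 0)
      by_contra hcon
      have h4 : ∀ e, e ≠ e0 → Cr t h Z e → e ∉ C := by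
        intro e h5 h6 h7
        apply hcon
        refine le_trans (le_of_eq (if_pos h7).symm)
          (Finset.single_le_sum (f := fun e => if e ∈ C then (1 : ℝ) else 0) ?_ ?_)
        · intro i _
          show (0 : ℝ) ≤ if i ∈ C then 1 else 0
          split_ifs <;> norm_num
        · rw [mem_filter]; exact ⟨mem_univ _, h5, h6⟩
      have h5 : ∑ e : E, (if e ∈ C then (1 : F2) else 0) *
          ((if t e ∈ Z then (1 : F2) else 0) + (if h e ∈ Z then (1 : F2) else 0)) = 1 := by
        rw [Finset.sum_eq_single e0]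
        · rw [if_pos he]
          unfold Cr at he0
          by_cases h6 : t e0 ∈ Z <;> by_cases h7 : h e0 ∈ Z
          · exact absurd ⟨fun _ => h7, fun _ => h6⟩ he0
          · rw [if_pos h6, if_neg h7]; norm_num
          · rw [if_neg h6, if_pos h7]; norm_num
          · exact absurd ⟨fun h8 => absurd h8 h6, fun h8 => absurd h8 h7⟩ he0
        · intro e _ hne
          by_cases h6 : Cr t h Z e
          · rw [if_neg (h4 e hne h6), zero_mul]
          · have h7 : (t e ∈ Z ↔ h e ∈ Z) := by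
              by_contra h8
              exact h6 h8
            by_cases h8 : h e ∈ Z
            · rw [if_pos h8, if_pos (h7.2 h8), f2_add_self, mul_zero]
            · rw [if_neg h8, if_neg (fun h9 => h8 (h7.1 h9)), f2_add_self, mul_zero]
        · intro h6; exact absurd (mem_univ _) h6
      have h6 : (1 : F2) = 0 := h5.symm.trans h3
      exact absurd h6 (by decide)
    · rw [if_neg he]
      apply Finset.sum_nonneg
      intro i _
      split_ifs <;> norm_num
  have hR : (p e0 : ℝ) ≤ ∑ e ∈ univ.filter (fun e => e ≠ e0 ∧ Cr t h Z e), (p e : ℝ) := by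
    rw [h2 e0]
    have h3 : ∑ e ∈ univ.filter (fun e => e ≠ e0 ∧ Cr t h Z e), (p e : ℝ) =
        ∑ C : Finset E, w C * ∑ e ∈ univ.filter (fun e => e ≠ e0 ∧ Cr t h Z e),
          (if e ∈ C then (1 : ℝ) else 0) := by
      rw [Finset.sum_congr rfl (fun e _ => h2 e), Finset.sum_comm]
      apply Finset.sum_congr rfl
      intro C _
      rw [Finset.mul_sum]
    rw [h3]
    apply Finset.sum_le_sum
    intro C _
    by_cases hC : G.IsCircuit C
    · exact mul_le_mul_of_nonneg_left (key C hC) (h0 C)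
    · rw [h1 C hC, zero_mul, zero_mul]
  exact_mod_cast hR

/-- the layers: `H` together with the edges of a colour -/
theorem layers (t h : E → V) (H : Finset E)
    (hH : ∀ Z : Finset V, Z.Nonempty → Z ≠ univ → ∃ e ∈ H, Cr t h Z e)
    (k : ℕ) (ω : E → ℕ) (hω : ∀ e, e ∉ H → ω e ≤ k) (S : Finset V → Prop)
    (hS1 : ∀ Z, (∃ b ∈ H, Cr t h Z b ∧ ∀ e ∈ H, Cr t h Z e → e = b) → S Z ∨ S Zᶜ)
    (hS2 : ∀ Z, (∃ b ∈ H, Cr t h Z b ∧ ∀ e ∈ H, Cr t h Z e → e = b) → S Z →
      ∀ e, e ∉ H → Cr t h Z e → t e ∈ Z)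
    (hS3 : ∀ Z, (∃ b ∈ H, Cr t h Z b ∧ ∀ e ∈ H, Cr t h Z e → e = b) →
      k ≤ ∑ e ∈ univ.filter (fun e => e ∉ H ∧ Cr t h Z e), ω e) :
    ∃ L : Fin k → Finset E, (∀ j, H ⊆ L j) ∧
      (∀ e, e ∉ H → (univ.filter (fun j => e ∈ L j)).card = ω e) ∧
      ∀ j, ∀ Z : Finset V, Z.Nonempty → Z ≠ univ →
        ∃ e f, e ≠ f ∧ e ∈ L j ∧ f ∈ L j ∧ Cr t h Z e ∧ Cr t h Z f := by
  classical
  obtain ⟨c, hc1, hc2⟩ := core t h H hH k ω hω
    (univ.filter (fun Z => (∃ b ∈ H, Cr t h Z b ∧ ∀ e ∈ H, Cr t h Z e → e = b) ∧ S Z))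
    (by
      intro Z hZ e he f hf h1 h2
      rw [mem_filter] at hZ
      obtain ⟨b, -, -, hb⟩ := hZ.2.1
      rw [hb e he h1, hb f hf h2])
    (by
      intro Z hZ e he hcr
      rw [mem_filter] at hZ
      exact hS2 Z hZ.2.1 hZ.2.2 e he hcr)
    (by
      intro Z hZ
      rw [mem_filter] at hZ
      exact hS3 Z hZ.2.1)
  refine ⟨fun j => H ∪ univ.filter (fun e => e ∉ H ∧ j ∈ c e), ?_, ?_, ?_⟩
  · intro j
    exact Finset.subset_union_left
  · intro e he
    rw [← hc1 e he]
    congr 1
    ext j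
    simp [he]
  · intro j Z hZ1 hZ2
    obtain ⟨b, hb, hbc⟩ := hH Z hZ1 hZ2
    by_cases hthin : ∀ e ∈ H, Cr t h Z e → e = b
    · have hth : ∃ b ∈ H, Cr t h Z b ∧ ∀ e ∈ H, Cr t h Z e → e = b := ⟨b, hb, hbc, hthin⟩
      rcases hS1 Z hth with hs | hs
      · obtain ⟨e, he, hec, hej⟩ := hc2 Z (by rw [mem_filter]; exact ⟨mem_univ _, hth, hs⟩) j
        refine ⟨e, b, fun h1 => he (h1 ▸ hb), ?_, ?_, hec, hbc⟩
        · simp [he, hej]
        · simp [hb]
      · have hth' : ∃ b ∈ H, Cr t h Zᶜ b ∧ ∀ e ∈ H, Cr t h Zᶜ e → e = b :=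
          ⟨b, hb, (cr_compl t h Z b).2 hbc, fun e he h1 => hthin e he ((cr_compl t h Z e).1 h1)⟩
        obtain ⟨e, he, hec, hej⟩ := hc2 Zᶜ (by rw [mem_filter]; exact ⟨mem_univ _, hth', hs⟩) j
        refine ⟨e, b, fun h1 => he (h1 ▸ hb), ?_, ?_, (cr_compl t h Z e).1 hec, hbc⟩
        · simp [he, hej]
        · simp [hb]
    · push Not at hthin
      obtain ⟨e, he, hec, hne⟩ := hthin
      exact ⟨e, b, hne, by simp [he], by simp [hb], hec, hbc⟩

/-- no cut of a graph between `L` and `univ` has exactly one edge -/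
lemma cn_ne_one (t h : E → V) (L M : Finset E) (hLM : L ⊆ M)
    (h2 : ∀ Z : Finset V, Z.Nonempty → Z ≠ univ →
        ∃ e f, e ≠ f ∧ e ∈ L ∧ f ∈ L ∧ Cr t h Z e ∧ Cr t h Z f) (B : Finset V) :
    cn (fun e => hv2 t h (e, false)) (fun e => hv2 t h (e, true)) M B ≠ 1 := by
  classical
  intro h3
  unfold cn at h3
  by_cases hB1 : B.Nonempty
  · by_cases hB2 : B = univ
    · subst hB2
      rw [Finset.filter_false_of_mem (by simp)] at h3
      simp at h3
    · obtain ⟨e, f, hne, he, hf, hec, hfc⟩ := h2 B hB1 hB2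
      rw [Finset.card_eq_one] at h3
      obtain ⟨x, hx⟩ := h3
      have h4 : e ∈ ({x} : Finset E) := by
        rw [← hx, mem_filter]; exact ⟨hLM he, hec⟩
      have h5 : f ∈ ({x} : Finset E) := by
        rw [← hx, mem_filter]; exact ⟨hLM hf, hfc⟩
      rw [mem_singleton] at h4 h5
      exact hne (h4.trans h5.symm)
  · rw [Finset.not_nonempty_iff_eq_empty] at hB1
    subst hB1
    rw [Finset.filter_false_of_mem (by simp)] at h3
    simp at h3

/-- a two-edge cut is trivial when it meets a graph without bridges in at most one edge -/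
lemma tc_eq (t h : E → V) (L : Finset E)
    (h2 : ∀ Z : Finset V, Z.Nonempty → Z ≠ univ →
        ∃ e f, e ≠ f ∧ e ∈ L ∧ f ∈ L ∧ Cr t h Z e ∧ Cr t h Z f) (e f : E) (he : e ∉ L)
    (htc : TC (fun e => hv2 t h (e, false)) (fun e => hv2 t h (e, true)) e f) : f = e := by
  classical
  by_contra hne
  obtain ⟨z, hz⟩ := htc
  have hz' : ∀ g, z (t g) + z (h g) = (if g = e then 1 else 0) + (if g = f then 1 else 0) := hz
  have hcr : ∀ g, Cr t h (univ.filter (fun v => z v = 1)) g ↔ (g = e ∨ g = f) := by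
    intro g
    have h3 := hz' g
    unfold Cr
    simp only [mem_filter, mem_univ, true_and]
    by_cases h4 : g = e
    · rw [if_pos h4, if_neg (fun h5 => hne (h5.symm.trans h4))] at h3
      rcases f2_cases (z (t g)) with h5 | h5 <;> rcases f2_cases (z (h g)) with h6 | h6 <;>
        rw [h5, h6] at h3 ⊢ <;> simp [h4] at h3 ⊢ <;> exact absurd h3 (by decide)
    · rw [if_neg h4] at h3
      by_cases h7 : g = f
      · rw [if_pos h7] at h3
        rcases f2_cases (z (t g)) with h5 | h5 <;> rcases f2_cases (z (h g)) with h6 | h6 <;>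
          rw [h5, h6] at h3 ⊢ <;> simp [h7] at h3 ⊢ <;> exact absurd h3 (by decide)
      · rw [if_neg h7] at h3
        rcases f2_cases (z (t g)) with h5 | h5 <;> rcases f2_cases (z (h g)) with h6 | h6 <;>
          rw [h5, h6] at h3 ⊢ <;> simp [h4, h7] at h3 ⊢
  have hce := (hcr e).2 (Or.inl rfl)
  have hZ1 : (univ.filter (fun v => z v = 1)).Nonempty := by
    by_contra h3
    rw [Finset.not_nonempty_iff_eq_empty] at h3
    rw [h3] at hce
    exact hce (by simp)
  have hZ2 : univ.filter (fun v => z v = 1) ≠ univ := by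
    intro h3
    rw [h3] at hce
    exact hce (by simp)
  obtain ⟨x, y, hxy, hx, hy, hxc, hyc⟩ := h2 _ hZ1 hZ2
  rcases (hcr x).1 hxc with h3 | h3
  · exact he (h3 ▸ hx)
  · rcases (hcr y).1 hyc with h4 | h4
    · exact he (h4 ▸ hy)
    · exact hxy (h3.trans h4.symm)

/-- first part: `H` carries the largest weight -/
theorem cover_max (G : MGraph V E) (t h : E → V) (hth : ∀ e, G.ends e = s(t e, h e)) (p : E → ℕ)
    (hev : ∀ e, Even (p e)) (c : ℕ) (hc : ∀ e, p e ≤ c) (S : Finset V → Prop)
    (hH : ∀ Z : Finset V, Z.Nonempty → Z ≠ univ → ∃ e, p e = c ∧ Cr t h Z e)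
    (hS1 : ∀ Z, (∃ b, p b = c ∧ Cr t h Z b ∧ ∀ e, p e = c → Cr t h Z e → e = b) → S Z ∨ S Zᶜ)
    (hS2 : ∀ Z, (∃ b, p b = c ∧ Cr t h Z b ∧ ∀ e, p e = c → Cr t h Z e → e = b) → S Z →
      ∀ e, p e ≠ c → Cr t h Z e → t e ∈ Z)
    (hp : InCone G p) : InIntCone G p := by
  classical
  choose q hq using hev
  have hqp : ∀ e, p e = 2 * q e := fun e => by rw [hq e]; ring
  let H : Finset E := univ.filter (fun e => p e = c)
  have hHm : ∀ e, e ∈ H ↔ p e = c := fun e => by simp [H]
  have hH' : ∀ Z : Finset V, Z.Nonempty → Z ≠ univ → ∃ e ∈ H, Cr t h Z e := by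
    intro Z h1 h2
    obtain ⟨e, he, hec⟩ := hH Z h1 h2
    exact ⟨e, (hHm e).2 he, hec⟩
  have hthin : ∀ Z, (∃ b ∈ H, Cr t h Z b ∧ ∀ e ∈ H, Cr t h Z e → e = b) →
      ∃ b, p b = c ∧ Cr t h Z b ∧ ∀ e, p e = c → Cr t h Z e → e = b := by
    rintro Z ⟨b, h1, h2, h3⟩
    exact ⟨b, (hHm b).1 h1, h2, fun e he => h3 e ((hHm e).2 he)⟩
  obtain ⟨L, hL1, hL2, hL3⟩ := layers t h H hH' (c / 2) q
    (by
      intro e _
      have h1 := hc e
      have h2 := hqp e
      omega) S
    (fun Z hZ => hS1 Z (hthin Z hZ))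
    (fun Z hZ hs e he => hS2 Z (hthin Z hZ) hs e (fun h1 => he ((hHm e).2 h1)))
    (by
      intro Z hZ
      obtain ⟨b, hb1, hb2, hb3⟩ := hthin Z hZ
      have h1 := cone_cut G t h hth p hp Z b hb2
      have h2 : univ.filter (fun e => e ≠ b ∧ Cr t h Z e) =
          univ.filter (fun e => e ∉ H ∧ Cr t h Z e) := by
        ext e
        rw [mem_filter, mem_filter, hHm]
        constructor
        · rintro ⟨_, h3, h4⟩
          exact ⟨mem_univ _, fun h5 => h3 (hb3 e h5 h4), h4⟩
        · rintro ⟨_, h3, h4⟩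
          exact ⟨mem_univ _, fun h5 => h3 (h5 ▸ hb1), h4⟩
      rw [h2, hb1] at h1
      have h3 : ∑ e ∈ univ.filter (fun e => e ∉ H ∧ Cr t h Z e), p e =
          2 * ∑ e ∈ univ.filter (fun e => e ∉ H ∧ Cr t h Z e), q e := by
        rw [Finset.mul_sum]
        exact Finset.sum_congr rfl (fun e _ => hqp e)
      omega)
  have hcov : ∀ j : Fin (c / 2), InIntCone G (fun e => if e ∈ univ \ L j then 0 else 2) := by
    intro j
    exact cover_minus G (hv2 t h) hth (univ \ L j) (fun B => by
      apply cn_ne_one t h (L j) _ ?_ (hL3 j)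
      rw [Finset.sdiff_sdiff_eq_self (Finset.subset_univ _)])
  have h1 := intCone_sum G (univ : Finset (Fin (c / 2))) _ (fun j _ => hcov j)
  convert h1 using 1
  ext e
  have h2 : ∀ j ∈ (univ : Finset (Fin (c / 2))), (if e ∈ univ \ L j then 0 else 2) =
      if e ∈ L j then 2 else 0 := by
    intro j _
    by_cases h3 : e ∈ L j <;> simp [h3]
  rw [Finset.sum_congr rfl h2, ← Finset.sum_filter, Finset.sum_const, smul_eq_mul]
  by_cases he : e ∈ H
  · have h3 : univ.filter (fun j => e ∈ L j) = univ := by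
      ext j
      simp [hL1 j he]
    rw [h3, Finset.card_univ, Fintype.card_fin, (hHm e).1 he]
    have h4 := hqp e
    rw [(hHm e).1 he] at h4
    omega
  · rw [hL2 e he, hqp e]
    ring

/-- loops -/
lemma cover_loops (G : MGraph V E) (p : E → ℕ) (hV : ∀ Z : Finset V, Z.Nonempty → Z = univ) :
    InIntCone G p := by
  classical
  have hx : ∀ x y : V, x = y := by
    intro x y
    have h1 := hV {x} ⟨x, mem_singleton_self x⟩
    have h2 : y ∈ ({x} : Finset V) := by rw [h1]; exact mem_univ _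
    exact (mem_singleton.1 h2).symm
  have hcirc : ∀ e, G.IsCircuit {e} := by
    intro e
    obtain ⟨v, hv⟩ := G.exists_halves
    have hends : ∀ w, G.ends e = s(w, w) := by
      intro w
      rw [hv e, hx (v (e, false)) w, hx (v (e, true)) w]
    refine ⟨⟨e, mem_singleton_self e⟩, ?_, ?_⟩
    · intro w
      right
      unfold MGraph.deg
      rw [Finset.filter_true_of_mem, Finset.filter_true_of_mem, card_singleton]
      · intro x hx'
        rw [mem_singleton] at hx'
        rw [hx', hends w]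
      · intro x hx'
        rw [mem_singleton] at hx'
        rw [hx', hends w]
        simp
    · intro x hx' y hy'
      rw [mem_singleton] at hx' hy'
      rw [hx', hy']
  have h1 := intCone_sum G (univ : Finset E) (fun f e => if e = f then p f else 0) (by
    intro f _
    refine ⟨p f • {{f}}, ?_, ?_⟩
    · intro C hC
      have := Multiset.mem_of_mem_nsmul hC
      rw [Multiset.mem_singleton] at this
      rw [this]; exact hcirc f
    · intro e
      rw [Multiset.countP_nsmul]
      show p f * Multiset.countP (fun C => e ∈ C) {{f}} = if e = f then p f else 0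
      by_cases h2 : e = f
      · rw [if_pos h2, ← Multiset.cons_zero, Multiset.countP_cons_of_pos _ (by simp [h2])]
        simp
      · rw [if_neg h2, ← Multiset.cons_zero, Multiset.countP_cons_of_neg _ (by simp [h2])]
        simp)
  convert h1 using 1
  ext e
  simp

/-- second part: weights divisible by four -/
theorem cover_four (G : MGraph V E) (t h : E → V) (hth : ∀ e, G.ends e = s(t e, h e)) (p : E → ℕ)
    (hev : ∀ e, 4 ∣ p e) (c : ℕ) (hc : ∀ e, 2 * p e ≤ 3 * c) (S : Finset V → Prop)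
    (hH : ∀ Z : Finset V, Z.Nonempty → Z ≠ univ → ∃ e, p e = c ∧ Cr t h Z e)
    (hS1 : ∀ Z, (∃ b, p b = c ∧ Cr t h Z b ∧ ∀ e, p e = c → Cr t h Z e → e = b) → S Z ∨ S Zᶜ)
    (hS2 : ∀ Z, (∃ b, p b = c ∧ Cr t h Z b ∧ ∀ e, p e = c → Cr t h Z e → e = b) → S Z →
      ∀ e, p e ≠ c → Cr t h Z e → t e ∈ Z)
    (hp : InCone G p) : InIntCone G p := by
  classical
  by_cases hne : ∃ e, p e = c
  swap
  · apply cover_loops
    intro Z hZ
    by_contra h1
    obtain ⟨e, he, -⟩ := hH Z hZ h1
    exact hne ⟨e, he⟩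
  obtain ⟨e0, he0⟩ := hne
  obtain ⟨k, hk⟩ : 4 ∣ c := he0 ▸ hev e0
  choose q hq using hev
  let H : Finset E := univ.filter (fun e => p e = c)
  have hHm : ∀ e, e ∈ H ↔ p e = c := fun e => by simp [H]
  have hH' : ∀ Z : Finset V, Z.Nonempty → Z ≠ univ → ∃ e ∈ H, Cr t h Z e := by
    intro Z h1 h2
    obtain ⟨e, he, hec⟩ := hH Z h1 h2
    exact ⟨e, (hHm e).2 he, hec⟩
  have hthin : ∀ Z, (∃ b ∈ H, Cr t h Z b ∧ ∀ e ∈ H, Cr t h Z e → e = b) →
      ∃ b, p b = c ∧ Cr t h Z b ∧ ∀ e, p e = c → Cr t h Z e → e = b := by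
    rintro Z ⟨b, h1, h2, h3⟩
    exact ⟨b, (hHm b).1 h1, h2, fun e he => h3 e ((hHm e).2 he)⟩
  have hq2 : ∀ e, 2 * q e ≤ 3 * k := fun e => by
    have h1 := hc e
    have h2 := hq e
    omega
  let ω : E → ℕ := fun e => min (q e) (2 * k - q e)
  obtain ⟨L, hL1, hL2, hL3⟩ := layers t h H hH' k ω
    (by
      intro e _
      show min (q e) (2 * k - q e) ≤ k
      omega) S
    (fun Z hZ => hS1 Z (hthin Z hZ))
    (fun Z hZ hs e he => hS2 Z (hthin Z hZ) hs e (fun h1 => he ((hHm e).2 h1)))
    (by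
      intro Z hZ
      obtain ⟨b, hb1, hb2, hb3⟩ := hthin Z hZ
      set M := univ.filter (fun e => e ∉ H ∧ Cr t h Z e) with hM
      have hMm : ∀ e, e ∈ M ↔ p e ≠ c ∧ Cr t h Z e := fun e => by
        rw [hM, mem_filter, hHm]; simp
      -- cut inequalities
      have hcut : ∀ e1, Cr t h Z e1 → q e1 ≤ ∑ e ∈ univ.filter (fun e => e ≠ e1 ∧ Cr t h Z e), q e := by
        intro e1 he1
        have h1 := cone_cut G t h hth p hp Z e1 he1
        rw [Finset.sum_congr rfl (fun e _ => hq e), ← Finset.mul_sum, hq e1] at h1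
        omega
      have hqb : q b = k := by have := hq b; omega
      by_cases hh : ∃ e1 ∈ M, k < q e1
      · obtain ⟨e1, he1, hk1⟩ := hh
        by_cases hh2 : ∃ e2 ∈ M, e2 ≠ e1 ∧ k < q e2
        · obtain ⟨e2, he2, hne2, hk2⟩ := hh2
          have h1 : ω e1 + ω e2 ≤ ∑ e ∈ M, ω e := by
            rw [← Finset.add_sum_erase M ω he1,
              ← Finset.add_sum_erase (M.erase e1) ω (mem_erase.2 ⟨hne2, he2⟩)]
            omega
          have h2 := hq2 e1
          have h3 := hq2 e2
          have h4 : ω e1 = min (q e1) (2 * k - q e1) := rfl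
          have h5 : ω e2 = min (q e2) (2 * k - q e2) := rfl
          omega
        · push Not at hh2
          have h1 := hcut e1 ((hMm e1).1 he1).2
          have h2 : univ.filter (fun e => e ≠ e1 ∧ Cr t h Z e) = insert b (M.erase e1) := by
            ext e
            rw [mem_filter, mem_insert, mem_erase, hMm]
            constructor
            · rintro ⟨_, h3, h4⟩
              by_cases h5 : p e = c
              · exact Or.inl (hb3 e h5 h4)
              · exact Or.inr ⟨h3, h5, h4⟩
            · rintro (h3 | ⟨h3, h4, h5⟩)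
              · subst h3
                exact ⟨mem_univ _, fun h6 => ((hMm e1).1 he1).1 (h6 ▸ hb1), hb2⟩
              · exact ⟨mem_univ _, h3, h5⟩
          have h6 : b ∉ M.erase e1 := by
            intro h7
            exact ((hMm b).1 (mem_of_mem_erase h7)).1 hb1
          rw [h2, Finset.sum_insert h6, hqb] at h1
          rw [← Finset.add_sum_erase M ω he1]
          have h7 : ∑ e ∈ M.erase e1, ω e = ∑ e ∈ M.erase e1, q e := by
            apply Finset.sum_congr rfl
            intro e he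
            have h8 := hh2 e (mem_of_mem_erase he) (ne_of_mem_erase he)
            show min (q e) (2 * k - q e) = q e
            omega
          rw [h7]
          have h8 : ω e1 = min (q e1) (2 * k - q e1) := rfl
          have h9 := hq2 e1
          omega
      · push Not at hh
        have h1 := hcut b hb2
        have h2 : univ.filter (fun e => e ≠ b ∧ Cr t h Z e) = M := by
          ext e
          rw [mem_filter, hMm]
          constructor
          · rintro ⟨_, h3, h4⟩
            exact ⟨fun h5 => h3 (hb3 e h5 h4), h4⟩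
          · rintro ⟨h3, h4⟩
            exact ⟨mem_univ _, fun h5 => h3 (h5 ▸ hb1), h4⟩
        rw [h2, hqb] at h1
        have h7 : ∑ e ∈ M, ω e = ∑ e ∈ M, q e := by
          apply Finset.sum_congr rfl
          intro e he
          have h8 := hh e he
          show min (q e) (2 * k - q e) = q e
          omega
        rw [h7]
        exact h1)
  have hcov : ∀ j : Fin k, InIntCone G (fun e =>
      if e ∈ univ \ L j then (if e ∈ univ.filter (fun e => k < q e) then 8 else 0) else 4) := by
    intro j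
    refine block G (hv2 t h) hth (univ \ L j) (univ.filter (fun e => k < q e)) ?_ ?_ ?_
    · intro e he f hef
      rw [mem_sdiff] at he
      rw [tc_eq t h (L j) (hL3 j) e f he.2 hef]
      rw [mem_sdiff]
      exact he
    · intro e he f hef
      rw [mem_filter] at he ⊢
      have h1 := const_of_tc G (hv2 t h) hth p hp hef
      rw [hq e, hq f] at h1
      refine ⟨mem_univ _, ?_⟩
      have := he.2
      omega
    · intro X' hX' _ B
      apply cn_ne_one t h (L j) _ ?_ (hL3 j)
      intro e he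
      rw [mem_sdiff]
      refine ⟨mem_univ _, fun h1 => ?_⟩
      exact (mem_sdiff.1 (hX' h1)).2 he
  have h1 := intCone_sum G (univ : Finset (Fin k)) _ (fun j _ => hcov j)
  convert h1 using 1
  ext e
  have h2 : ∀ j ∈ (univ : Finset (Fin k)),
      (if e ∈ univ \ L j then (if e ∈ univ.filter (fun e => k < q e) then 8 else 0) else 4) =
      if e ∈ L j then 4 else (if k < q e then 8 else 0) := by
    intro j _
    by_cases h3 : e ∈ L j <;> simp [h3]
  rw [Finset.sum_congr rfl h2, Finset.sum_ite, Finset.sum_const, Finset.sum_const, smul_eq_mul,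
    smul_eq_mul]
  have h3 : (univ.filter (fun j => e ∈ L j)).card + (univ.filter (fun j => ¬ e ∈ L j)).card = k := by
    rw [Finset.card_filter_add_card_filter_not, Finset.card_univ, Fintype.card_fin]
  by_cases he : e ∈ H
  · have h4 : univ.filter (fun j => e ∈ L j) = univ := by
      ext j
      simp [hL1 j he]
    have h5 : (univ.filter (fun j => e ∈ L j)).card = k := by
      rw [h4, Finset.card_univ, Fintype.card_fin]
    have h6 : (univ.filter (fun j => ¬ e ∈ L j)).card = 0 := by omega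
    rw [h5, h6, (hHm e).1 he, hk]
    ring
  · have h4 := hL2 e he
    have h5 : ω e = min (q e) (2 * k - q e) := rfl
    have h6 : q e ≠ k := by
      intro h7
      exact he ((hHm e).2 (by rw [hq e, h7, hk]))
    have h7 := hq2 e
    rw [h4] at h3 ⊢
    rw [hq e]
    by_cases h8 : k < q e
    · rw [if_pos h8]
      omega
    · rw [if_neg h8]
      omega

end Pool.Agent.H66.EC
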