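import Pool.Agent.H66.EC.Main

set_option autoImplicit false
set_option linter.unusedSectionVars false

/-!
Third range: weights (even or not) between about `c / 2` and `3 c / 2`.
-/

namespace Pool.Agent.H66.EC

open Finset
open Pool.Agent.Helper879.ECD (F2 IsFlow f2_add_self f2_cases cn)
open Pool.Agent.H126R2.CDC (MGraph isFl_iff)
open Pool.Agent.H126R2.NC (TC InCone InLat InIntCone cone_lat_of_intCone cover_minus const_of_tc
  countP_sum)
open Pool.Agent.TH399.CC (block intCone_add intCone_sum odd_part)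

variable {V E : Type} [Fintype V] [DecidableEq V] [Fintype E] [DecidableEq E]

/-- rounds of weight four and of weight two -/
theorem cover_rounds (G : MGraph V E) (t h : E → V) (hth : ∀ e, G.ends e = s(t e, h e)) (p : E → ℕ)
    (htc : ∀ e f, TC (fun e => hv2 t h (e, false)) (fun e => hv2 t h (e, true)) e f → p e = p f)
    (H : Finset E) (S : Finset V → Prop)
    (hH : ∀ Z : Finset V, Z.Nonempty → Z ≠ univ → ∃ e ∈ H, Cr t h Z e)
    (hS1 : ∀ Z, (∃ b ∈ H, Cr t h Z b ∧ ∀ e ∈ H, Cr t h Z e → e = b) → S Z ∨ S Zᶜ)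
    (hS2 : ∀ Z, (∃ b ∈ H, Cr t h Z b ∧ ∀ e ∈ H, Cr t h Z e → e = b) → S Z →
      ∀ e, e ∉ H → Cr t h Z e → t e ∈ Z)
    (u v c : ℕ) (hc : c = 4 * u + 2 * v) (a s : E → ℕ) (ha : ∀ e, e ∉ H → a e ≤ u)
    (hs : ∀ e, e ∉ H → s e ≤ v)
    (ha3 : ∀ Z, (∃ b ∈ H, Cr t h Z b ∧ ∀ e ∈ H, Cr t h Z e → e = b) →
      u ≤ ∑ e ∈ univ.filter (fun e => e ∉ H ∧ Cr t h Z e), a e)
    (hs3 : ∀ Z, (∃ b ∈ H, Cr t h Z b ∧ ∀ e ∈ H, Cr t h Z e → e = b) →
      v ≤ ∑ e ∈ univ.filter (fun e => e ∉ H ∧ Cr t h Z e), s e)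
    (hpH : ∀ e ∈ H, p e = c)
    (hpN : ∀ e, e ∉ H → p e = 4 * a e + (if c < p e then 8 * (u - a e) else 0) + 2 * s e) :
    InIntCone G p := by
  classical
  obtain ⟨L, hL1, hL2, hL3⟩ := layers t h H hH u a ha S hS1 hS2 ha3
  obtain ⟨M, hM1, hM2, hM3⟩ := layers t h H hH v s hs S hS1 hS2 hs3
  have hcov1 : ∀ j : Fin u, InIntCone G (fun e =>
      if e ∈ univ \ L j then (if e ∈ univ.filter (fun e => c < p e) then 8 else 0) else 4) := by
    intro j
    refine block G (hv2 t h) hth (univ \ L j) (univ.filter (fun e => c < p e)) ?_ ?_ ?_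
    · intro e he f hef
      rw [mem_sdiff] at he
      rw [tc_eq t h (L j) (hL3 j) e f he.2 hef]
      rw [mem_sdiff]
      exact he
    · intro e he f hef
      rw [mem_filter] at he ⊢
      rw [← htc e f hef]
      exact ⟨mem_univ _, he.2⟩
    · intro X' hX' _ B
      apply cn_ne_one t h (L j) _ ?_ (hL3 j)
      intro e he
      rw [mem_sdiff]
      refine ⟨mem_univ _, fun h1 => ?_⟩
      exact (mem_sdiff.1 (hX' h1)).2 he
  have hcov2 : ∀ j : Fin v, InIntCone G (fun e => if e ∈ univ \ M j then 0 else 2) := by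
    intro j
    exact cover_minus G (hv2 t h) hth (univ \ M j) (fun B => by
      apply cn_ne_one t h (M j) _ ?_ (hM3 j)
      rw [Finset.sdiff_sdiff_eq_self (Finset.subset_univ _)])
  refine intCone_add G (intCone_sum G (univ : Finset (Fin u)) _ (fun j _ => hcov1 j))
    (intCone_sum G (univ : Finset (Fin v)) _ (fun j _ => hcov2 j)) ?_
  intro e
  show p e = ∑ j ∈ (univ : Finset (Fin u)),
      (if e ∈ univ \ L j then (if e ∈ univ.filter (fun e => c < p e) then 8 else 0) else 4) +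
    ∑ j ∈ (univ : Finset (Fin v)), (if e ∈ univ \ M j then 0 else 2)
  have h1 : ∀ j ∈ (univ : Finset (Fin u)),
      (if e ∈ univ \ L j then (if e ∈ univ.filter (fun e => c < p e) then 8 else 0) else 4) =
      if e ∈ L j then 4 else (if c < p e then 8 else 0) := by
    intro j _
    by_cases h3 : e ∈ L j <;> simp [h3]
  have h2 : ∀ j ∈ (univ : Finset (Fin v)), (if e ∈ univ \ M j then 0 else 2) =
      if e ∈ M j then 2 else 0 := by
    intro j _
    by_cases h3 : e ∈ M j <;> simp [h3]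
  rw [Finset.sum_congr rfl h1, Finset.sum_congr rfl h2, ← Finset.sum_filter, Finset.sum_ite,
    Finset.sum_const, Finset.sum_const, Finset.sum_const, smul_eq_mul, smul_eq_mul, smul_eq_mul]
  have h3 : (univ.filter (fun j => e ∈ L j)).card + (univ.filter (fun j => ¬ e ∈ L j)).card = u := by
    rw [Finset.card_filter_add_card_filter_not, Finset.card_univ, Fintype.card_fin]
  by_cases he : e ∈ H
  · have h4 : univ.filter (fun j => e ∈ L j) = univ := by
      ext j
      simp [hL1 j he]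
    have h5 : (univ.filter (fun j => e ∈ L j)).card = u := by
      rw [h4, Finset.card_univ, Fintype.card_fin]
    have h6 : (univ.filter (fun j => ¬ e ∈ L j)).card = 0 := by omega
    have h7 : univ.filter (fun j => e ∈ M j) = univ := by
      ext j
      simp [hM1 j he]
    rw [h5, h6, h7, Finset.card_univ, Fintype.card_fin, hpH e he, hc]
    ring
  · have h4 := hL2 e he
    have h5 := hM2 e he
    have h6 := hpN e he
    rw [h4] at h3 ⊢
    rw [h5]
    have h7 : (univ.filter (fun j => ¬ e ∈ L j)).card = u - a e := by omega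
    rw [h7]
    by_cases h8 : c < p e
    · rw [if_pos h8] at h6 ⊢
      omega
    · rw [if_neg h8] at h6 ⊢
      omega

/-- numbers of rounds of an edge -/
lemma exists_rounds (k u v q : ℕ) (hk : k = 2 * u + v) (hu : u % 2 = 0) (hv : 2 ≤ v) (hv5 : v ≤ 5)
    (h1 : k ≤ 2 * q) (h2 : 2 * q + 7 ≤ 3 * k) (hq : q ≠ k) :
    ∃ a s : ℕ, a ≤ u ∧ s ≤ v ∧ u ≤ 2 * a ∧ v ≤ 2 * s ∧
      q = 2 * a + (if k < q then 4 * (u - a) else 0) + s := by
  by_cases h3 : k < q
  · simp only [if_pos h3]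
    by_cases h4 : (q - k) % 2 = 0
    · exact ⟨u - (q - k) / 2, v, by omega, by omega, by omega, by omega, by omega⟩
    · exact ⟨u - (q - k + 1) / 2, v - 1, by omega, by omega, by omega, by omega, by omega⟩
  · simp only [if_neg h3]
    by_cases h4 : q ≤ u + v
    · exact ⟨u / 2, q - u, by omega, by omega, by omega, by omega, by omega⟩
    · exact ⟨(q - v + 1) / 2, q - 2 * ((q - v + 1) / 2), by omega, by omega, by omega, by omega,
        by omega⟩

/-- even weights between `c / 2` and `3 c / 2 - 7` -/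
theorem cover_mid (G : MGraph V E) (t h : E → V) (hth : ∀ e, G.ends e = s(t e, h e)) (p : E → ℕ)
    (hev : ∀ e, Even (p e)) (c : ℕ) (hc1 : ∀ e, c ≤ 2 * p e) (hc2 : ∀ e, 2 * p e + 14 ≤ 3 * c)
    (htc : ∀ e f, TC (fun e => hv2 t h (e, false)) (fun e => hv2 t h (e, true)) e f → p e = p f)
    (H : Finset E) (hHm : ∀ e, e ∈ H ↔ p e = c) (e0 : E) (he0 : e0 ∈ H) (S : Finset V → Prop)
    (hH' : ∀ Z : Finset V, Z.Nonempty → Z ≠ univ → ∃ e ∈ H, Cr t h Z e)
    (hS1 : ∀ Z, (∃ b ∈ H, Cr t h Z b ∧ ∀ e ∈ H, Cr t h Z e → e = b) → S Z ∨ S Zᶜ)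
    (hS2 : ∀ Z, (∃ b ∈ H, Cr t h Z b ∧ ∀ e ∈ H, Cr t h Z e → e = b) → S Z →
      ∀ e, e ∉ H → Cr t h Z e → t e ∈ Z)
    (htwo : ∀ Z, (∃ b ∈ H, Cr t h Z b ∧ ∀ e ∈ H, Cr t h Z e → e = b) → ∃ e1 e2, e1 ≠ e2 ∧
      e1 ∈ univ.filter (fun e => e ∉ H ∧ Cr t h Z e) ∧
      e2 ∈ univ.filter (fun e => e ∉ H ∧ Cr t h Z e)) : InIntCone G p := by
  classical
  choose q hq using hev
  have hqp : ∀ e, p e = 2 * q e := fun e => by rw [hq e]; ring
  obtain ⟨k, hk⟩ : ∃ k, c = 2 * k := ⟨q e0, by rw [← (hHm e0).1 he0, hqp]⟩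
  -- the numbers of rounds
  obtain ⟨u, v, huv, hu, hv, hv5⟩ : ∃ u v, k = 2 * u + v ∧ u % 2 = 0 ∧ 2 ≤ v ∧ v ≤ 5 := by
    have h1 := hc2 e0
    have h2 := (hHm e0).1 he0
    refine ⟨2 * ((k - 2) / 4), k - 4 * ((k - 2) / 4), ?_, ?_, ?_, ?_⟩ <;> omega
  have hex : ∀ e, ∃ a s : ℕ, e ∉ H → a ≤ u ∧ s ≤ v ∧ u ≤ 2 * a ∧ v ≤ 2 * s ∧
      q e = 2 * a + (if k < q e then 4 * (u - a) else 0) + s := by
    intro e
    by_cases he : e ∈ H
    · exact ⟨0, 0, fun h1 => absurd he h1⟩
    · have h1 := hc1 e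
      have h2 := hc2 e
      have h3 := hqp e
      obtain ⟨a, s, h4⟩ := exists_rounds k u v (q e) huv hu hv hv5 (by omega) (by omega) (by
        intro h5
        apply he
        rw [hHm, h3, h5, hk])
      exact ⟨a, s, fun _ => h4⟩
  choose a s has using hex
  refine cover_rounds G t h hth p htc H S hH' hS1 hS2 u v c
    (by omega) a s (fun e he => (has e he).1) (fun e he => (has e he).2.1) ?_ ?_
    (fun e he => (hHm e).1 he) ?_
  · intro Z hZ
    obtain ⟨e1, e2, hne, h1, h2⟩ := htwo Z hZ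
    have h3 := (has e1 (mem_filter.1 h1).2.1).2.2.1
    have h4 := (has e2 (mem_filter.1 h2).2.1).2.2.1
    rw [← Finset.add_sum_erase _ a h1,
      ← Finset.add_sum_erase _ a (mem_erase.2 ⟨hne.symm, h2⟩)]
    omega
  · intro Z hZ
    obtain ⟨e1, e2, hne, h1, h2⟩ := htwo Z hZ
    have h3 := (has e1 (mem_filter.1 h1).2.1).2.2.2.1
    have h4 := (has e2 (mem_filter.1 h2).2.1).2.2.2.1
    rw [← Finset.add_sum_erase _ s h1,
      ← Finset.add_sum_erase _ s (mem_erase.2 ⟨hne.symm, h2⟩)]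
    omega
  · intro e he
    have h1 := (has e he).2.2.2.2
    have h2 := hqp e
    by_cases h3 : k < q e
    · rw [if_pos h3] at h1
      rw [if_pos (by omega)]
      omega
    · rw [if_neg h3] at h1
      rw [if_neg (by omega)]
      omega

/-- third part: weights, even or not, between `c / 2 + 1` and `(3 c - 17) / 2` -/
theorem cover_any (G : MGraph V E) (t h : E → V) (hth : ∀ e, G.ends e = s(t e, h e)) (p : E → ℕ)
    (c : ℕ) (hc1 : ∀ e, c + 2 ≤ 2 * p e) (hc2 : ∀ e, 2 * p e + 17 ≤ 3 * c)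
    (S : Finset V → Prop)
    (hH : ∀ Z : Finset V, Z.Nonempty → Z ≠ univ → ∃ e, p e = c ∧ Cr t h Z e)
    (hS1 : ∀ Z, (∃ b, p b = c ∧ Cr t h Z b ∧ ∀ e, p e = c → Cr t h Z e → e = b) → S Z ∨ S Zᶜ)
    (hS2 : ∀ Z, (∃ b, p b = c ∧ Cr t h Z b ∧ ∀ e, p e = c → Cr t h Z e → e = b) → S Z →
      ∀ e, p e ≠ c → Cr t h Z e → t e ∈ Z)
    (hp : InCone G p) (hlat : InLat G p) : InIntCone G p := by
  classical
  by_cases hne : ∃ e, p e = c
  swap
  · apply cover_loops
    intro Z hZ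
    by_contra h1
    obtain ⟨e, he, -⟩ := hH Z hZ h1
    exact hne ⟨e, he⟩
  obtain ⟨e0, he0⟩ := hne
  let p' : E → ℕ := fun e => 2 * (p e / 2)
  let c' : ℕ := 2 * (c / 2)
  have hp' : ∀ e, p' e = 2 * (p e / 2) := fun e => rfl
  have hc' : c' = 2 * (c / 2) := rfl
  let H : Finset E := univ.filter (fun e => p' e = c')
  have hHm : ∀ e, e ∈ H ↔ p' e = c' := fun e => by simp [H]
  have hHc : ∀ e, p e = c → e ∈ H := by
    intro e he
    rw [hHm, hp', hc', he]
  have hH' : ∀ Z : Finset V, Z.Nonempty → Z ≠ univ → ∃ e ∈ H, Cr t h Z e := by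
    intro Z h1 h2
    obtain ⟨e, he, hec⟩ := hH Z h1 h2
    exact ⟨e, hHc e he, hec⟩
  have hthin : ∀ Z, (∃ b ∈ H, Cr t h Z b ∧ ∀ e ∈ H, Cr t h Z e → e = b) →
      ∃ b, p b = c ∧ Cr t h Z b ∧ ∀ e, p e = c → Cr t h Z e → e = b := by
    rintro Z ⟨b, h1, h2, h3⟩
    have hZ1 : Z.Nonempty := by
      rw [Finset.nonempty_iff_ne_empty]
      intro h4
      rw [h4] at h2
      exact h2 (by simp)
    have hZ2 : Z ≠ univ := by
      intro h4
      rw [h4] at h2
      exact h2 (by simp)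
    obtain ⟨e1, h4, h5⟩ := hH Z hZ1 hZ2
    have h6 := h3 e1 (hHc e1 h4) h5
    subst h6
    exact ⟨e1, h4, h5, fun e he hl => h3 e (hHc e he) hl⟩
  have hodd := odd_part G p hlat
  refine intCone_add G (?_ : InIntCone G p') hodd (fun e => by rw [hp']; omega)
  refine cover_mid G t h hth p' (fun e => ⟨p e / 2, by rw [hp']; ring⟩) c' ?_ ?_ ?_ H hHm e0
    (hHc e0 he0) S hH' (fun Z hZ => hS1 Z (hthin Z hZ)) ?_ ?_
  · intro e
    have h1 := hc1 e
    rw [hp', hc']
    omega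
  · intro e
    have h1 := hc2 e
    rw [hp', hc']
    omega
  · intro e f hef
    rw [hp', hp', const_of_tc G (hv2 t h) hth p hp hef]
  · intro Z hZ hs e he
    exact hS2 Z (hthin Z hZ) hs e (fun h1 => he (hHc e h1))
  · intro Z hZ
    obtain ⟨b, hb1, hb2, hb3⟩ := hZ
    have h2 : univ.filter (fun e => e ≠ b ∧ Cr t h Z e) =
        univ.filter (fun e => e ∉ H ∧ Cr t h Z e) := by
      ext e
      rw [mem_filter, mem_filter]
      constructor
      · rintro ⟨_, h3, h4⟩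
        exact ⟨mem_univ _, fun h5 => h3 (hb3 e h5 h4), h4⟩
      · rintro ⟨_, h3, h4⟩
        exact ⟨mem_univ _, fun h5 => h3 (h5 ▸ hb1), h4⟩
    have h1 := cone_cut G t h hth p hp Z b hb2
    rw [h2] at h1
    have hbpos : 0 < p b := by
      have := hc1 b
      omega
    obtain ⟨e1, he1⟩ : (univ.filter (fun e => e ∉ H ∧ Cr t h Z e)).Nonempty := by
      rw [Finset.nonempty_iff_ne_empty]
      intro h3
      rw [h3, Finset.sum_empty] at h1
      omega
    by_contra hcon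
    push Not at hcon
    have h4 : univ.filter (fun e => e ∉ H ∧ Cr t h Z e) = {e1} := by
      ext e
      rw [mem_singleton]
      constructor
      · intro h5
        by_contra h6
        exact hcon e e1 h6 h5 he1
      · intro h5
        rw [h5]; exact he1
    rw [h4, Finset.sum_singleton] at h1
    rw [mem_filter] at he1
    have h5 := cone_cut G t h hth p hp Z e1 he1.2.2
    have h6 : univ.filter (fun e => e ≠ e1 ∧ Cr t h Z e) = {b} := by
      ext e
      rw [mem_filter, mem_singleton]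
      constructor
      · rintro ⟨_, h7, h8⟩
        by_contra h9
        have h10 : e ∈ univ.filter (fun e => e ≠ b ∧ Cr t h Z e) := by
          rw [mem_filter]; exact ⟨mem_univ _, h9, h8⟩
        rw [h2, h4, mem_singleton] at h10
        exact h7 h10
      · intro h7
        subst h7
        exact ⟨mem_univ _, fun h8 => he1.2.1 (h8 ▸ hb1), hb2⟩
    rw [h6, Finset.sum_singleton] at h5
    have h7 : p e1 = p b := le_antisymm h5 h1
    apply he1.2.1
    rw [hHm, hp', h7, ← hp']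
    exact (hHm b).1 hb1

end Pool.Agent.H66.EC
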